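import Pool.Agent.helper60.DA.SpecV

set_option autoImplicit false

namespace Pool.Agent.helper60.DA

open Polynomial Finset Pool.Agent.helper60.DK

private theorem KS_four (p : ℕ) [Fact p.Prime] (hp : 5 ≤ p) : (4 : ZMod p) ≠ 0 := by
  intro h
  have h4 : ((4 : ℕ) : ZMod p) = 0 := by exact_mod_cast h
  rw [ZMod.natCast_eq_zero_iff] at h4
  have := Nat.le_of_dvd (by norm_num) h4
  omega

private theorem KS_quarter (p : ℕ) [Fact p.Prime] (hp : 5 ≤ p) :
    C (-1 / 4 : ZMod p) * 4 = -1 := by
  have h4 := KS_four p hp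
  have e : (4 : (ZMod p)[X]) = C (4 : ZMod p) := (map_ofNat C 4).symm
  rw [e, ← C_mul]
  have : (-1 / 4 : ZMod p) * 4 = -1 := by field_simp
  rw [this]
  simp

private theorem KS_dy (p : ℕ) [Fact p.Prime] :
    derivative (ys p) = C (-1 / 4) * (3 * ((X - 1) * (X + 1))) := by
  have e : ys p = C (-1 / 4) * ((X - 1) * (X - 1) * (X + 2)) := by
    unfold ys
    ring
  rw [e]
  simp only [derivative_mul, derivative_C, derivative_sub, derivative_add,
    derivative_X, derivative_one, derivative_ofNat]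
  ring

private theorem KS_pow (p : ℕ) [Fact p.Prime] (hp : 5 ≤ p) :
    (ys p) ^ (p - 1) = ((X - 1) ^ 2 * (X + 2)) ^ (p - 1) := by
  unfold ys
  have h4 := KS_four p hp
  have hne : (-1 / 4 : ZMod p) ≠ 0 := div_ne_zero (by simp) h4
  rw [mul_pow, ← C_pow, ZMod.pow_card_sub_one_eq_one hne]
  simp

theorem KS (h : K1_stmt) : KS_stmt := by
  intro p _ hp
  have h1 := h p hp
  have h2 := congrArg (fun f => f.comp (ys p)) h1
  simp only [mul_comp, sub_comp, add_comp, one_comp, X_comp, pow_comp] at h2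
  have hK : derivative (Ks p) = derivative (ys p) * (derivative (Kp p)).comp (ys p) := by
    unfold Ks
    exact derivative_comp _ _
  have hD : derivative (Ds p) = derivative (ys p) * (derivative (red p (Dz (nn p)))).comp (ys p) := by
    unfold Ds
    exact derivative_comp _ _
  have h3 : (1 + ys p) * (derivative (Ks p) * Ds p - Ks p * derivative (Ds p)) =
      derivative (ys p) * (Ds p ^ 2 - (ys p) ^ (p - 1)) := by
    rw [hK, hD]
    have h4 : (1 + ys p) * ((derivative (Kp p)).comp (ys p) * Ds p -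
        Ks p * (derivative (red p (Dz (nn p)))).comp (ys p)) = Ds p ^ 2 - (ys p) ^ (p - 1) := h2
    linear_combination (derivative (ys p)) * h4
  have hq := KS_quarter p hp
  have hy : ys p = C (-1 / 4) * ((X - 1) ^ 2 * (X + 2)) := rfl
  have h1y : 1 + ys p = -C (-1 / 4) * ((2 - X) * (X + 1) ^ 2) := by
    rw [hy]
    linear_combination hq
  rw [h1y, KS_dy, KS_pow p hp] at h3
  have hc : C (-1 / 4 : ZMod p) * (X + 1) ≠ 0 := by
    refine mul_ne_zero ?_ ?_
    · rw [Ne, C_eq_zero]
      exact div_ne_zero (by simp) (KS_four p hp)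
    · exact X_add_C_ne_zero 1
  refine mul_left_cancel₀ hc ?_
  linear_combination (-1 : (ZMod p)[X]) * h3

end Pool.Agent.helper60.DA
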